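import Pool.Agent.L0h45.AV.Stm

/-!
# Project AV, module CND: the conditions on the classes
-/

set_option autoImplicit false
set_option linter.all false

namespace Pool.Agent.L0h84.AV

open Finset
open Pool.Agent.N874.PP (Tup chA chB gq tau Ev)
open Pool.Agent.N922.PQ (dsc IsCub JJ Ov)
open Pool.Agent.L0h45.AV

theorem sq_dvd_MZ (Z p : ℕ) (hp : p.Prime) (h5 : 5 ≤ p) (hZ : p ≤ Z) : p ^ 2 ∣ MZ Z := by
  unfold MZ
  apply Dvd.dvd.mul_left
  exact Finset.dvd_prod_of_mem (fun q => q ^ 2)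
    (Finset.mem_filter.2 ⟨Finset.mem_Icc.2 ⟨h5, hZ⟩, hp⟩)

theorem prime_cases (p : ℕ) (hp : p.Prime) : p = 2 ∨ p = 3 ∨ 5 ≤ p := by
  have h2 := hp.two_le
  by_contra h
  push Not at h
  obtain ⟨ha, hb, hc⟩ := h
  have : p = 4 := by omega
  subst this
  revert hp
  decide

theorem md_MZ (Z : ℕ) : Md Z (MZ Z) := by
  refine ⟨?_, ?_, ?_⟩
  · unfold MZ
    apply Nat.one_le_iff_ne_zero.2
    apply mul_ne_zero (by norm_num)
    apply Finset.prod_ne_zero_iff.2
    intro q hq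
    have := (Finset.mem_filter.1 hq).2.pos
    positivity
  · unfold MZ
    exact Dvd.dvd.mul_right (by norm_num) _
  · intro p hp hZ
    rcases prime_cases p hp with h | h | h
    · subst h
      unfold MZ
      exact Dvd.dvd.mul_right (by norm_num) _
    · subst h
      unfold MZ
      exact Dvd.dvd.mul_right (by norm_num) _
    · exact (Dvd.intro_left p (by ring)).trans (sq_dvd_MZ Z p hp h hZ)

theorem prime_dvd_MZ (Z p : ℕ) (hp : p.Prime) (h5 : 5 ≤ p) (hd : p ∣ MZ Z) : p ≤ Z := by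
  unfold MZ at hd
  rcases (hp.dvd_mul).1 hd with h | h
  · exfalso
    have h1 : p ≤ 24 := Nat.le_of_dvd (by norm_num) h
    interval_cases p <;> first | omega | (revert hp; decide)
  · obtain ⟨q, hq, hpq⟩ := (hp.prime.dvd_finset_prod_iff _).1 h
    have hq' := Finset.mem_filter.1 hq
    have h2 : p ∣ q := hp.dvd_of_dvd_pow hpq
    have h3 : p = q := (Nat.prime_dvd_prime_iff_eq hp hq'.2).1 h2
    rw [h3]
    exact (Finset.mem_Icc.1 hq'.1).2

theorem t_CND : S_CND := by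
  intro Z hZ
  refine ⟨md_MZ Z, ?_⟩
  intro a b ha h3 hAl β hA hB
  obtain ⟨hb, hsq⟩ := hAl
  have h2M : (2 : ℤ) ∣ (MZ Z : ℤ) := by
    have := (md_MZ Z).even
    exact_mod_cast this
  have h3M : (3 : ℤ) ∣ (MZ Z : ℤ) := by
    have := (md_MZ Z).dvd 3 Nat.prime_three hZ
    exact_mod_cast this
  refine ⟨hA, ?_, ?_⟩
  · intro hx
    have hA2 := h2M.trans hA
    have hB2 := h2M.trans hB
    have hb2 : ¬ (2 : ℤ) ∣ b := by
      intro h
      have := Int.not_even_iff_odd.2 hb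
      exact this (even_iff_two_dvd.2 h)
    have key : ∀ y w : ℤ, (2 : ℤ) ∣ β.y ∨ (2 : ℤ) ∣ β.w → (2 : ℤ) ∣ b := by
      intro y w h
      have hwy : (2 : ℤ) ∣ β.w * β.y ^ 2 := by
        rcases h with h | h
        · exact Dvd.dvd.mul_left (Dvd.dvd.pow h (by norm_num)) _
        · exact Dvd.dvd.mul_right h _
      obtain ⟨k, hk⟩ := hwy
      obtain ⟨l, hl⟩ := hB2
      obtain ⟨m, hm⟩ := hx
      refine ⟨β.c ^ 3 + β.c * β.y * β.z - m * β.z ^ 2 - k - β.c * β.x * β.w - l, ?_⟩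
      have e : chB β = 2 * β.c ^ 3 + 2 * β.c * β.y * β.z - β.x * β.z ^ 2 - β.w * β.y ^ 2 -
        2 * β.c * β.x * β.w := rfl
      have e2 : β.x * β.z ^ 2 = 2 * m * β.z ^ 2 := by rw [hm]
      linarith
    exact ⟨fun h => hb2 (key 0 0 (Or.inl h)), fun h => hb2 (key 0 0 (Or.inr h))⟩
  · intro p hp hp2 hpM hpx hpy
    have hp3 : p ≠ 3 := by
      intro h
      subst h
      apply h3
      obtain ⟨k, hk⟩ := h3M.trans hA
      obtain ⟨l, hl⟩ := hpx
      obtain ⟨m, hm⟩ := hpy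
      have e : chA β = -3 * β.c ^ 2 - 2 * β.y * β.z - β.x * β.w := rfl
      rw [hl, hm] at e
      refine ⟨-β.c ^ 2 - 2 * m * β.z - l * β.w - k, ?_⟩
      push_cast at e
      linarith
    have h5 : 5 ≤ p := by
      rcases prime_cases p hp with h | h | h
      · exact absurd h hp2
      · exact absurd h hp3
      · exact h
    have hpZ := prime_dvd_MZ Z p hp h5 hpM
    have hp2M := sq_dvd_MZ Z p hp h5 hpZ
    have hp2M' : (p : ℤ) ^ 2 ∣ (MZ Z : ℤ) := by exact_mod_cast hp2M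
    have hA2 := hp2M'.trans hA
    have hB2 := hp2M'.trans hB
    have hns := hsq p hp h5 hpZ
    obtain ⟨k, hk⟩ := hA2
    obtain ⟨l, hl⟩ := hB2
    obtain ⟨m, hm⟩ := hpy
    have eA : chA β = -3 * β.c ^ 2 - 2 * β.y * β.z - β.x * β.w := rfl
    have eB : chB β = 2 * β.c ^ 3 + 2 * β.c * β.y * β.z - β.x * β.z ^ 2 - β.w * β.y ^ 2 -
        2 * β.c * β.x * β.w := rfl
    refine ⟨hp3, hp2M, ?_, ?_⟩
    · rintro ⟨n, hn⟩
      apply hns
      obtain ⟨t, ht⟩ : ∃ t, t = (p : ℤ) * (m * β.z) := ⟨_, rfl⟩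
      have h1 : -3 * β.c ^ 2 - 2 * t ≡ a [ZMOD (p : ℤ) ^ 2] := by
        rw [Int.modEq_iff_dvd]
        refine ⟨-n * β.w - k, ?_⟩
        rw [hm, hn] at eA
        rw [ht]
        linear_combination (-1 : ℤ) * hk + eA
      have h2 : 2 * β.c ^ 3 + 2 * β.c * t ≡ b [ZMOD (p : ℤ) ^ 2] := by
        rw [Int.modEq_iff_dvd]
        refine ⟨-n * β.z ^ 2 - β.w * m ^ 2 - 2 * β.c * n * β.w - l, ?_⟩
        rw [hm, hn] at eB
        rw [ht]
        linear_combination (-1 : ℤ) * hl + eB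
      have h3' : dsc (-3 * β.c ^ 2 - 2 * t) (2 * β.c ^ 3 + 2 * β.c * t) ≡ dsc a b
          [ZMOD (p : ℤ) ^ 2] := by
        unfold dsc
        exact ((h1.pow 3).mul_left 4).add ((h2.pow 2).mul_left 27)
      have h4 : (p : ℤ) ^ 2 ∣ dsc (-3 * β.c ^ 2 - 2 * t) (2 * β.c ^ 3 + 2 * β.c * t) := by
        refine ⟨(m * β.z) ^ 2 * (-36 * β.c ^ 2 - 32 * t), ?_⟩
        have h6 : dsc (-3 * β.c ^ 2 - 2 * t) (2 * β.c ^ 3 + 2 * β.c * t) =
            t ^ 2 * (-36 * β.c ^ 2 - 32 * t) := by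
          unfold dsc
          ring
        rw [h6]
        rw [show t ^ 2 = (p : ℤ) ^ 2 * (m * β.z) ^ 2 by rw [ht]; ring]
        ring
      have h5' := (Int.modEq_iff_dvd.1 h3')
      have h7 := dvd_add h5' h4
      rwa [sub_add_cancel] at h7
    · rintro ⟨n, hn⟩
      apply hns
      obtain ⟨x, hx⟩ := hpx
      have h1 : (p : ℤ) ∣ a := by
        refine ⟨-3 * n * β.c - 2 * m * β.z - x * β.w - p * k, ?_⟩
        rw [hm, hx] at eA
        have e3 : β.c ^ 2 = p * n * β.c := by rw [pow_two]; nth_rw 1 [hn]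
        linear_combination (-1 : ℤ) * hk + eA - 3 * e3
      have h2 : (p : ℤ) ∣ b := by
        refine ⟨2 * n * β.c ^ 2 + 2 * β.c * m * β.z - x * β.z ^ 2 - β.w * m * β.y -
          2 * β.c * x * β.w - p * l, ?_⟩
        have e3 : β.c ^ 3 = p * n * β.c ^ 2 := by rw [pow_succ, mul_comm]; nth_rw 1 [hn]
        have e4 : β.y ^ 2 = p * m * β.y := by rw [pow_two]; nth_rw 1 [hm]
        have e5 : β.c * β.y * β.z = p * (β.c * m * β.z) := by rw [hm]; ring
        have e6 : β.x * β.z ^ 2 = p * (x * β.z ^ 2) := by rw [hx]; ring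
        have e7 : β.c * β.x * β.w = p * (β.c * x * β.w) := by rw [hx]; ring
        linear_combination (-1 : ℤ) * hl + eB + 2 * e3 + 2 * e5 - e6 - β.w * e4 - 2 * e7
      obtain ⟨u, hu⟩ := h1
      obtain ⟨v, hv⟩ := h2
      refine ⟨4 * p * u ^ 3 + 27 * v ^ 2, ?_⟩
      unfold dsc
      rw [hu, hv]
      ring

end Pool.Agent.L0h84.AV
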