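import Pool.Agent.L0h45.AV.Stm3
import Pool.Agent.N50.PQ.Maj
import Pool.Agent.N441.PQ.LB
import Pool.Agent.N738.PQ.Chi

set_option autoImplicit false
set_option linter.all false

/-!
# Project AV (helper45), module REXn: existence of the tuple, any sign of `a`

Adapted from `L0h93/AV/REX.lean` (helper93) and from the last part of `N50/PQ/Maj.lean` (helper50): there the hypothesis is `0 < a`.
-/

open IsDedekindDomain NumberField Matrix
open scoped Classical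

namespace Pool.Agent.L0h84.AV.REXn

open Pool.Agent.N874.PP (Tup chA chB Ev)
open Pool.Agent.N922.PQ
open Pool.Agent.N441.PQ (gram_change li_change)
open Pool.Agent.L0h45.AV
open Pool.Agent.N50.PQ.Maj (Cm Vm l1 l2 cm_sum pos_val int_val co_mul ev ev_mul ev_one ev_theta ev_ne ev_div norm_co)

/-- a real zero -/
lemma real_root (a b : ℤ) : ∃ t : ℝ, t ^ 3 + (a : ℝ) * t + (b : ℝ) = 0 := by
  obtain ⟨R, hR⟩ : ∃ R : ℝ, R = 1 + |(a : ℝ)| + |(b : ℝ)| := ⟨_, rfl⟩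
  have ha := abs_nonneg (a : ℝ)
  have hb := abs_nonneg (b : ℝ)
  have hR1 : 1 ≤ R := by linarith
  have hcont : Continuous fun t : ℝ => t ^ 3 + (a : ℝ) * t + (b : ℝ) := by fun_prop
  have h1 := intermediate_value_Icc (show -R ≤ R by linarith) hcont.continuousOn
  have h2 := abs_le.1 (le_refl |(a : ℝ)|)
  have h3 := abs_le.1 (le_refl |(b : ℝ)|)
  have h4 : |(a : ℝ)| * R + |(b : ℝ)| ≤ R ^ 3 := by
    have h5 : |(a : ℝ)| * R + |(b : ℝ)| ≤ (|(a : ℝ)| + |(b : ℝ)|) * R := by nlinarith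
    have h6 : (|(a : ℝ)| + |(b : ℝ)|) * R ≤ R * R := by nlinarith
    have h7 : R * R ≤ R ^ 3 := by nlinarith [mul_nonneg (show (0 : ℝ) ≤ R by linarith) (show (0 : ℝ) ≤ R by linarith)]
    linarith
  have h8 : (a : ℝ) * R ≤ |(a : ℝ)| * R := by nlinarith
  have h9 : -(|(a : ℝ)| * R) ≤ (a : ℝ) * R := by nlinarith
  have hm : (0 : ℝ) ∈ Set.Icc ((-R) ^ 3 + (a : ℝ) * (-R) + (b : ℝ)) (R ^ 3 + (a : ℝ) * R + (b : ℝ)) := by
    constructor
    · nlinarith
    · nlinarith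
  obtain ⟨t, _, ht2⟩ := h1 hm
  exact ⟨t, ht2⟩

/-- the form takes a positive value -/
theorem pos_value {L : Type} [Field L] [NumberField L] {a b : ℤ} {θ : L} (h : IsCub a b θ) (hd : 0 < dsc a b) (α : L)
    (e : Fin 3 → L) (hα : α ≠ 0) (hN : 0 < Algebra.norm ℚ α) (he : LinearIndependent ℚ e) :
    ∃ v : Fin 3 → ℤ, 0 < ∑ i, ∑ j, (v i : ℚ) * (v j : ℚ) * h.co 2 (e i * e j / α) := by
  obtain ⟨t, ht⟩ := real_root a b
  have hs : (0 : ℝ) < a + 3 * t ^ 2 / 4 := by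
    have h1 : (0 : ℝ) < 4 * (a : ℝ) ^ 3 + 27 * (b : ℝ) ^ 2 := by
      have h2 : (0 : ℝ) < ((dsc a b : ℤ) : ℝ) := by exact_mod_cast hd
      unfold dsc at h2
      push_cast at h2
      exact h2
    have h3 : 4 * (a : ℝ) ^ 3 + 27 * (b : ℝ) ^ 2 = (4 * a + 3 * t ^ 2) * (a + 3 * t ^ 2) ^ 2 := by
      have h4 : (b : ℝ) = -(t ^ 3 + a * t) := by linarith
      rw [h4]
      ring
    rw [h3] at h1
    have h5 : 0 ≤ ((a : ℝ) + 3 * t ^ 2) ^ 2 := sq_nonneg _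
    by_contra hcon
    push Not at hcon
    have h6 := mul_nonpos_of_nonpos_of_nonneg (show 4 * (a : ℝ) + 3 * t ^ 2 ≤ 0 by linarith) h5
    linarith
  obtain ⟨p, hp⟩ : ∃ p : ℝ, p = -t / 2 := ⟨_, rfl⟩
  obtain ⟨q, hq⟩ : ∃ q : ℝ, q = Real.sqrt (a + 3 * t ^ 2 / 4) := ⟨_, rfl⟩
  have hq2 : q ^ 2 = a + 3 * t ^ 2 / 4 := by
    rw [hq, Real.sq_sqrt hs.le]
  have hq0 : 0 < q := by
    rw [hq]
    exact Real.sqrt_pos.2 hs
  obtain ⟨z, hz⟩ : ∃ z : ℂ, z = ⟨p, q⟩ := ⟨_, rfl⟩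
  have hzre : z.re = p := by rw [hz]
  have hzim : z.im = q := by rw [hz]
  have hz2 : z ^ 2 + (t : ℂ) * z + ((t : ℂ) ^ 2 + (a : ℂ)) = 0 := by
    apply Complex.ext
    · simp only [pow_two, Complex.add_re, Complex.mul_re, Complex.ofReal_re, Complex.ofReal_im,
        Complex.intCast_re, Complex.zero_re, hzre, hzim]
      rw [hp]
      nlinarith
    · simp only [pow_two, Complex.add_im, Complex.mul_im, Complex.ofReal_re, Complex.ofReal_im,
        Complex.intCast_im, Complex.zero_im, hzre, hzim]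
      rw [hp]
      ring
  have htC : (t : ℂ) ^ 3 + (a : ℂ) * (t : ℂ) + (b : ℂ) = 0 := by exact_mod_cast ht
  have hz3 : z ^ 3 + (a : ℂ) * z + (b : ℂ) = 0 := by
    linear_combination (z - t) * hz2 + htC
  obtain ⟨δ, hδ⟩ : ∃ δ : ℝ, δ = (t - p) ^ 2 + q ^ 2 := ⟨_, rfl⟩
  have hδ0 : 0 < δ := by rw [hδ]; positivity
  -- the formula for the last coordinate
  obtain ⟨W0, hW0⟩ : ∃ W0 : ℂ, W0 = ⟨-1 / (2 * δ), (t - p) / (2 * δ * q)⟩ := ⟨_, rfl⟩
  have hW0re : W0.re = -1 / (2 * δ) := by rw [hW0]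
  have hW0im : W0.im = (t - p) / (2 * δ * q) := by rw [hW0]
  have hc2 : ∀ x : L, ((h.co 2 x : ℚ) : ℝ) = 1 / δ * ev h t x + 2 * (W0 * ev h z x).re := by
    intro x
    unfold ev
    simp only [Complex.mul_re, Complex.mul_im, Complex.add_re, Complex.add_im, Complex.ratCast_re,
      Complex.ratCast_im, pow_two, hzre, hzim, hW0re, hW0im]
    have hδ' := hδ0.ne'
    have hq' := hq0.ne'
    field_simp
    rw [hδ]
    ring
  -- the norm
  have hnorm : ((Algebra.norm ℚ α : ℚ) : ℝ) = ev h t α * Complex.normSq (ev h z α) := by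
    rw [norm_co h, Complex.normSq_apply]
    unfold ev
    simp only [Complex.mul_re, Complex.mul_im, Complex.add_re, Complex.add_im, Complex.ratCast_re,
      Complex.ratCast_im, pow_two, hzre, hzim]
    push_cast
    have hb : (b : ℝ) = -(t ^ 3 + a * t) := by linarith
    have ha2 : (a : ℝ) = q ^ 2 - 3 * t ^ 2 / 4 := by linarith
    rw [hb, ha2, hp]
    ring
  have hpos : 0 < ev h t α := by
    have h1 : (0 : ℝ) < ((Algebra.norm ℚ α : ℚ) : ℝ) := by exact_mod_cast hN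
    rw [hnorm] at h1
    have h2 : 0 ≤ Complex.normSq (ev h z α) := Complex.normSq_nonneg _
    by_contra hcon
    push Not at hcon
    have h3 := mul_nonpos_of_nonpos_of_nonneg hcon h2
    linarith
  have hz0 : ev h z α ≠ 0 := ev_ne h hz3 hα
  obtain ⟨A, hA⟩ : ∃ A : ℝ, A = 1 / δ / ev h t α := ⟨_, rfl⟩
  have hA0 : 0 < A := by rw [hA]; positivity
  obtain ⟨W, hW⟩ : ∃ W : ℂ, W = W0 / ev h z α := ⟨_, rfl⟩
  obtain ⟨E1, hE1⟩ : ∃ E1 : Fin 3 → ℝ, E1 = fun i => ev h t (e i) := ⟨_, rfl⟩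
  obtain ⟨E2, hE2⟩ : ∃ E2 : Fin 3 → ℂ, E2 = fun i => ev h z (e i) := ⟨_, rfl⟩
  have hC2 : ∀ i j, ((h.co 2 (e i * e j / α) : ℚ) : ℝ) = A * E1 i * E1 j + 2 * (W * E2 i * E2 j).re := by
    intro i j
    rw [hc2, ev_div h ht _ hα, ev_div h hz3 _ hα, ev_mul h ht, ev_mul h hz3, hA, hW, hE1, hE2]
    congr 1
    · field_simp
    · congr 2
      field_simp
  -- the determinant
  have hV : (Vm E1 E2).det ≠ 0 := by
    obtain ⟨Cq, hCq⟩ : ∃ Cq : Matrix (Fin 3) (Fin 3) ℚ, Cq = Matrix.of fun i k => h.co k (e i) := ⟨_, rfl⟩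
    have hli : LinearIndependent ℚ Cq.row := by
      have h1 := he.map' h.basis.equivFun.toLinearMap (LinearEquiv.ker _)
      have h2 : (h.basis.equivFun.toLinearMap ∘ e) = Cq.row := by
        rw [hCq]
        rfl
      rwa [h2] at h1
    have hdet : Cq.det ≠ 0 := by
      have h1 := Matrix.linearIndependent_rows_iff_isUnit.1 hli
      exact ((Matrix.isUnit_iff_isUnit_det _).1 h1).ne_zero
    have hfac : (Vm E1 E2).det = ((Cq.det : ℚ) : ℝ) * (q * δ) := by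
      rw [hδ, hCq, hE1, hE2]
      unfold Vm ev
      simp only [Matrix.det_fin_three, Matrix.of_apply, Matrix.cons_val_zero, Matrix.cons_val_one,
        Matrix.cons_val, Complex.mul_re, Complex.mul_im, Complex.add_re, Complex.add_im,
        Complex.ratCast_re, Complex.ratCast_im, pow_two, hzre, hzim]
      push_cast
      ring
    rw [hfac]
    have : ((Cq.det : ℚ) : ℝ) ≠ 0 := by exact_mod_cast hdet
    positivity
  obtain ⟨u, hu⟩ := pos_val E1 E2 A W hA0 hV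
  refine int_val (fun i j => h.co 2 (e i * e j / α)) u ?_
  simp only [hC2]
  exact hu

theorem t_REXn (h1 : S_SD) (h2 : S_DET) (h4 : S_NRM) : S_REXn := by
  intro L O _ _ _ _ _ _ _ a b θ h ha hsqf α hα hsq hEv
  obtain ⟨e, hSD⟩ := h1 L O h.rank α hα hEv
  obtain ⟨G, B0, hdet, hG, hB0⟩ := h2 L a b θ h hsqf α e hα hsq hSD
  have hnorm : 0 < Algebra.norm ℚ α := by
    obtain ⟨r, hr⟩ := hsq
    have hr0 : r ≠ 0 := by
      rintro rfl
      rw [mul_zero] at hr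
      exact hα (Algebra.norm_eq_zero_iff.1 hr)
    rw [hr]
    exact mul_self_pos.2 hr0
  obtain ⟨v0, hv0⟩ := pos_value h ha α e hα hnorm hSD.li
  have hGsymm : G.IsSymm := by
    ext i j
    rw [Matrix.transpose_apply]
    have h8 : (G j i : ℚ) = (G i j : ℚ) := by rw [hG, hG, mul_comm (e j)]
    exact_mod_cast h8
  have hGp : ∃ v : Fin 3 → ℤ, 0 < v ⬝ᵥ G *ᵥ v := by
    refine ⟨v0, ?_⟩
    have h10 : ((v0 ⬝ᵥ G *ᵥ v0 : ℤ) : ℚ) = ∑ i, ∑ j, (v0 i : ℚ) * (v0 j : ℚ) *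
        h.co 2 (e i * e j / α) := by
      simp only [← hG]
      simp only [dotProduct, Matrix.mulVec, Fin.sum_univ_three]
      push_cast
      ring
    have h11 : (0 : ℚ) < ((v0 ⬝ᵥ G *ᵥ v0 : ℤ) : ℚ) := by rw [h10]; exact hv0
    exact_mod_cast h11
  obtain ⟨U, hU, hJJ⟩ := h4 G hGsymm hdet hGp
  obtain ⟨B2, hB2⟩ : ∃ B2, B2 = U * B0 * Uᵀ := ⟨_, rfl⟩
  obtain ⟨e', he'⟩ : ∃ e' : Fin 3 → L, ∀ i, e' i = ∑ j, (U i j : L) * e j :=
    ⟨fun i => ∑ j, (U i j : L) * e j, fun i => rfl⟩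
  have hli : LinearIndependent ℚ e' := li_change e e' U hU hSD.li he'
  have hc2 : ∀ i j, h.co 2 (e' i * e' j / α) = (JJ i j : ℚ) := by
    intro i j
    rw [gram_change (h.co 2) α e e' G U hG he' i j, hJJ]
  have hc1 : ∀ i j, h.co 1 (e' i * e' j / α) = (B2 i j : ℚ) := by
    intro i j
    rw [gram_change (h.co 1) α e e' B0 U hB0 he' i j, ← hB2]
  obtain ⟨hm, -, -⟩ := Pool.Agent.N738.PQ.chi L a b θ h α e' hα hli hc2 B2 hc1
  have hsym : ∀ i j, B2 i j = B2 j i := by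
    intro i j
    have h8 : (B2 i j : ℚ) = B2 j i := by rw [← hc1, ← hc1, mul_comm (e' i)]
    exact_mod_cast h8
  refine ⟨⟨B2 0 0, B2 0 1, B2 0 2, B2 1 2, B2 2 2⟩, e', hli, hc2, ?_⟩
  intro i j
  rw [hc1]
  congr 1
  unfold L0h45.AV.mt
  have e1 := hsym 1 0
  have e2 := hsym 2 0
  have e3 := hsym 2 1
  fin_cases i <;> fin_cases j <;> simp [hm, e1, e2, e3]

end Pool.Agent.L0h84.AV.REXn
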