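import Pool.Agent.L0h45.AV.Stm

/-!
# Project AV, module WS: the pairs with a common divisor prime to `M`
-/

set_option autoImplicit false
set_option linter.all false

namespace Pool.Agent.L0h84.AV.WS

open Finset Filter Topology
open scoped Classical
open Pool.Agent.L0h45.AV
open Pool.Agent.L0h45.LR (tn Bx Cgr)

theorem factor_bound (p v : ℕ) (hp : p.Prime) :
    ((v : ℝ) + 1) ≤ (if p < 256 then 16 else 1) * ((p : ℝ) ^ v) ^ (1 / 8 : ℝ) := by
  split_ifs with h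
  · have h1 : ((2 : ℝ) ^ v) ^ (1 / 8 : ℝ) ≤ ((p : ℝ) ^ v) ^ (1 / 8 : ℝ) := by
      apply Real.rpow_le_rpow (by positivity) _ (by norm_num)
      apply pow_le_pow_left₀ (by norm_num)
      exact_mod_cast hp.two_le
    have h2 : ((2 : ℝ) ^ v) ^ (1 / 8 : ℝ) = Real.exp (Real.log 2 * (v / 8)) := by
      rw [← Real.rpow_natCast, ← Real.rpow_mul (by norm_num), Real.rpow_def_of_pos (by norm_num)]
      congr 1
      ring
    have h3 := Real.add_one_le_exp (Real.log 2 * (v / 8))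
    have h4 := Real.log_two_gt_d9
    have h5 : (1 / 2 : ℝ) * (v / 8) ≤ Real.log 2 * (v / 8) := by
      apply mul_le_mul_of_nonneg_right (by linarith) (by positivity)
    rw [h2] at h1
    have h6 : (0 : ℝ) ≤ v := Nat.cast_nonneg v
    linarith
  · have h1 : ((256 : ℝ) ^ v) ^ (1 / 8 : ℝ) ≤ ((p : ℝ) ^ v) ^ (1 / 8 : ℝ) := by
      apply Real.rpow_le_rpow (by positivity) _ (by norm_num)
      apply pow_le_pow_left₀ (by norm_num)
      exact_mod_cast not_lt.1 h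
    have h2 : ((256 : ℝ) ^ v) ^ (1 / 8 : ℝ) = 2 ^ v := by
      rw [show (256 : ℝ) ^ v = (2 ^ v) ^ 8 by rw [← pow_mul, mul_comm, pow_mul]; norm_num]
      rw [← Real.rpow_natCast ((2 : ℝ) ^ v) 8, ← Real.rpow_mul (by positivity)]
      norm_num
    have h3 : (v : ℝ) + 1 ≤ 2 ^ v := by
      have : v + 1 ≤ 2 ^ v := Nat.lt_two_pow_self
      exact_mod_cast this
    rw [one_mul]
    linarith

theorem div_bound : ∃ C : ℝ, 1 ≤ C ∧ ∀ n : ℕ, 1 ≤ n → (tn n : ℝ) ≤ C * (n : ℝ) ^ (1 / 8 : ℝ) := by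
  refine ⟨16 ^ 256, one_le_pow₀ (by norm_num), fun n hn => ?_⟩
  have hn0 : n ≠ 0 := by omega
  unfold tn
  rw [Nat.card_divisors hn0]
  push_cast
  have h1 : ∏ x ∈ n.primeFactors, ((n.factorization x : ℝ) + 1) ≤
      ∏ x ∈ n.primeFactors, ((if x < 256 then (16 : ℝ) else 1) *
        ((x : ℝ) ^ (n.factorization x)) ^ (1 / 8 : ℝ)) := by
    apply Finset.prod_le_prod
    · intro x _
      positivity
    · intro x hx
      exact factor_bound x _ (Nat.prime_of_mem_primeFactors hx)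
  refine h1.trans ?_
  rw [Finset.prod_mul_distrib]
  have h2 : ∏ x ∈ n.primeFactors, (if x < 256 then (16 : ℝ) else 1) ≤ 16 ^ 256 := by
    rw [Finset.prod_ite, Finset.prod_const, Finset.prod_const_one, mul_one]
    apply pow_le_pow_right₀ (by norm_num)
    have : (n.primeFactors.filter fun x => x < 256) ⊆ Finset.range 256 := by
      intro x hx
      exact Finset.mem_range.2 (Finset.mem_filter.1 hx).2
    have h3 := Finset.card_le_card this
    rwa [Finset.card_range] at h3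
  have h3 : ∏ x ∈ n.primeFactors, ((x : ℝ) ^ (n.factorization x)) ^ (1 / 8 : ℝ) =
      (n : ℝ) ^ (1 / 8 : ℝ) := by
    rw [Real.finset_prod_rpow _ _ (fun i _ => by positivity)]
    congr 1
    have h4 := Nat.prod_factorization_pow_eq_self hn0
    rw [Finsupp.prod, Nat.support_factorization] at h4
    conv_rhs => rw [← h4]
    push_cast
    rfl
  rw [h3]
  exact mul_le_mul_of_nonneg_right h2 (by positivity)

theorem card_cls (A : Finset ℤ) (m : ℕ) (hm : 1 ≤ m) (x₁ L : ℝ) (hL : 0 ≤ L)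
    (h1 : ∀ x ∈ A, x₁ ≤ x ∧ (x : ℝ) ≤ x₁ + L) (h2 : ∀ x ∈ A, ∀ y ∈ A, (m : ℤ) ∣ x - y) :
    (A.card : ℝ) ≤ L / m + 1 := by
  have hmR : (1 : ℝ) ≤ m := by exact_mod_cast hm
  rcases A.eq_empty_or_nonempty with h | h
  · rw [h]
    simp only [Finset.card_empty, Nat.cast_zero]
    positivity
  obtain ⟨a, ha, hmin⟩ := A.exists_min_image id h
  simp only [id] at hmin
  have hcard : A.card ≤ (Finset.range (⌊L / m⌋₊ + 1)).card := by
    apply Finset.card_le_card_of_injOn (fun x => ((x - a) / m).toNat)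
    · intro x hx
      have hx' : x ∈ A := by simpa using hx
      obtain ⟨k, hk⟩ := h2 x hx' a ha
      have hmZ : (m : ℤ) ≠ 0 := by positivity
      have hk0 : 0 ≤ k := by
        have h3 : 0 ≤ (m : ℤ) * k := by rw [← hk]; linarith [hmin x hx']
        exact nonneg_of_mul_nonneg_right h3 (by positivity)
      have hdiv : (x - a) / m = k := by rw [hk]; exact Int.mul_ediv_cancel_left k hmZ
      have hkR : (m : ℝ) * k ≤ L := by
        have h4 := (h1 x hx').2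
        have h5 := (h1 a ha).1
        have h6 : (x : ℝ) - a = m * k := by exact_mod_cast hk
        linarith
      have h7 : (k.toNat : ℝ) ≤ L / m := by
        rw [le_div_iff₀ (by linarith)]
        have : ((k.toNat : ℕ) : ℝ) = (k : ℝ) := by
          have := Int.toNat_of_nonneg hk0
          exact_mod_cast this
        rw [this]
        linarith
      simp only [Finset.coe_range, Set.mem_Iio]
      rw [hdiv]
      exact Nat.lt_succ_of_le (Nat.le_floor h7)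
    · intro x hx y hy hxy
      have hx' : x ∈ A := by simpa using hx
      have hy' : y ∈ A := by simpa using hy
      obtain ⟨k, hk⟩ := h2 x hx' a ha
      obtain ⟨l, hl⟩ := h2 y hy' a ha
      have hmZ : (m : ℤ) ≠ 0 := by positivity
      have hk0 : 0 ≤ k := by
        have h3 : 0 ≤ (m : ℤ) * k := by rw [← hk]; linarith [hmin x hx']
        exact nonneg_of_mul_nonneg_right h3 (by positivity)
      have hl0 : 0 ≤ l := by
        have h3 : 0 ≤ (m : ℤ) * l := by rw [← hl]; linarith [hmin y hy']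
        exact nonneg_of_mul_nonneg_right h3 (by positivity)
      simp only [hk, hl, Int.mul_ediv_cancel_left _ hmZ] at hxy
      have : k = l := by omega
      rw [this] at hk
      linarith
  rw [Finset.card_range] at hcard
  have h3 : (⌊L / m⌋₊ : ℝ) ≤ L / m := Nat.floor_le (by positivity)
  have h4 : (A.card : ℝ) ≤ (⌊L / m⌋₊ + 1 : ℕ) := by exact_mod_cast hcard
  push_cast at h4
  linarith

theorem gt_of_coprime (Z M g : ℕ) (h : Md Z M) (h1 : 1 < g) (h2 : Nat.Coprime g M) : Z + 1 ≤ g := by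
  obtain ⟨p, hp, hpg⟩ := Nat.exists_prime_and_dvd (show g ≠ 1 by omega)
  by_contra hcon
  have hpZ : p ≤ Z := by
    have := Nat.le_of_dvd (by omega) hpg
    omega
  have := h.dvd p hp hpZ
  exact hp.one_lt.ne' (Nat.dvd_one.1 (h2 ▸ Nat.dvd_gcd hpg this))

/-- the estimate for one `g`; `g = s ^ 8`, `κ X = k ^ 8` -/
theorem one (C s z k κ ν ρ σ X M : ℝ) (hC : 0 ≤ C) (hz : 0 < z) (hzs : z ≤ s) (hsk : s ≤ k)
    (hk : k ^ 8 = κ * X) (hκ : 0 < κ) (hν : 0 ≤ ν) (hρ : 0 < ρ) (hσ : 0 < σ) (hX : 0 < X)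
    (hM : 1 ≤ M) :
    (ρ * X / (s ^ 8 * M) + 1) * (σ * X / (s ^ 8 * M) + 1) * (C * s * s ^ 4 * (1 + ν * s ^ 8 / X)) ≤
      (C * z⁻¹ * (ρ * σ) * X ^ 2 / M ^ 2 +
        C * (ν * (ρ * σ) + (1 + ν * κ) * (ρ + σ) + (1 + ν * κ) * κ) * X * k ^ 7) * (s ^ 10)⁻¹ := by
  have hs : 0 < s := lt_of_lt_of_le hz hzs
  have hk0 : 0 < k := lt_of_lt_of_le hs hsk
  have hMp : 0 < M := by linarith
  have hs7 : s ^ 7 ≤ k ^ 7 := pow_le_pow_left₀ hs.le hsk 7
  have hs8 : s ^ 8 ≤ k ^ 8 := pow_le_pow_left₀ hs.le hsk 8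
  have hV : ν * s ^ 8 / X ≤ ν * κ := by
    rw [div_le_iff₀ hX]
    calc ν * s ^ 8 ≤ ν * k ^ 8 := mul_le_mul_of_nonneg_left hs8 hν
      _ = ν * κ * X := by rw [hk]; ring
  rw [← div_eq_mul_inv, le_div_iff₀ (by positivity)]
  have e0 : (ρ * X / (s ^ 8 * M) + 1) * (σ * X / (s ^ 8 * M) + 1) *
      (C * s * s ^ 4 * (1 + ν * s ^ 8 / X)) * s ^ 10 =
      C * s⁻¹ * (ρ * σ) * X ^ 2 / M ^ 2 + C * (ν * (ρ * σ)) * X * s ^ 7 * (M ^ 2)⁻¹ +
      C * ((1 + ν * s ^ 8 / X) * (ρ + σ)) * X * s ^ 7 * M⁻¹ +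
      C * (1 + ν * s ^ 8 / X) * (s ^ 8 * s ^ 7) := by
    field_simp
    ring
  rw [e0]
  have a1 : C * s⁻¹ * (ρ * σ) * X ^ 2 / M ^ 2 ≤ C * z⁻¹ * (ρ * σ) * X ^ 2 / M ^ 2 := by
    have : s⁻¹ ≤ z⁻¹ := inv_anti₀ hz hzs
    gcongr
  have hM1 : M⁻¹ ≤ 1 := inv_le_one_of_one_le₀ hM
  have hM2 : (M ^ 2)⁻¹ ≤ 1 := inv_le_one_of_one_le₀ (one_le_pow₀ hM)
  have a2 : C * (ν * (ρ * σ)) * X * s ^ 7 * (M ^ 2)⁻¹ ≤ C * (ν * (ρ * σ)) * X * k ^ 7 * 1 := by
    gcongr
  have a3 : C * ((1 + ν * s ^ 8 / X) * (ρ + σ)) * X * s ^ 7 * M⁻¹ ≤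
      C * ((1 + ν * κ) * (ρ + σ)) * X * k ^ 7 * 1 := by
    gcongr
  have a4 : C * (1 + ν * s ^ 8 / X) * (s ^ 8 * s ^ 7) ≤ C * (1 + ν * κ) * (k ^ 8 * k ^ 7) := by
    gcongr
  rw [hk] at a4
  linarith

theorem summable_w : Summable fun n : ℕ => ((((n : ℝ) ^ (1 / 8 : ℝ)) ^ 10)⁻¹) := by
  have h : (fun n : ℕ => ((((n : ℝ) ^ (1 / 8 : ℝ)) ^ 10)⁻¹)) = fun n : ℕ => (n : ℝ) ^ (-(5 / 4) : ℝ) := by
    funext n
    rw [Real.rpow_neg (Nat.cast_nonneg n), ← Real.rpow_natCast, ← Real.rpow_mul (Nat.cast_nonneg n)]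
    norm_num
  rw [h]
  exact Real.summable_nat_rpow.2 (by norm_num)

theorem rpow8 (x : ℝ) (hx : 0 ≤ x) : (x ^ (1 / 8 : ℝ)) ^ 8 = x := by
  rw [← Real.rpow_natCast, ← Real.rpow_mul hx]
  norm_num

theorem rpow4 (x : ℝ) (hx : 0 ≤ x) : (x ^ (1 / 8 : ℝ)) ^ 4 = √x := by
  rw [← Real.rpow_natCast, ← Real.rpow_mul hx, Real.sqrt_eq_rpow]
  norm_num

theorem t_WS : S_WS := by
  obtain ⟨C, hC1, hC⟩ := div_bound
  obtain ⟨D, hDe⟩ : ∃ D : ℝ, D = ∑' n : ℕ, ((((n : ℝ) ^ (1 / 8 : ℝ)) ^ 10)⁻¹) := ⟨_, rfl⟩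
  have hD0 : 0 ≤ D := by rw [hDe]; exact tsum_nonneg fun n => by positivity
  have hC0 : 0 ≤ C := by linarith
  refine ⟨fun Z => C * (((Z : ℝ) + 1) ^ (1 / 8 : ℝ))⁻¹ * D, fun Z => by positivity, ?_, ?_⟩
  · have h1 : Tendsto (fun Z : ℕ => (((Z : ℝ) + 1) ^ (1 / 8 : ℝ))) atTop atTop :=
      (tendsto_rpow_atTop (by norm_num)).comp
        (tendsto_atTop_add_const_right _ _ tendsto_natCast_atTop_atTop)
    have h2 := (h1.inv_tendsto_atTop.const_mul C).mul_const D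
    simpa using h2
  intro Z M hMd κ ρ σ ν ε hκ hρ hσ hν hε
  obtain ⟨C₁, hC₁⟩ : ∃ C₁ : ℝ, C₁ = C * (ν * (ρ * σ) + (1 + ν * κ) * (ρ + σ) + (1 + ν * κ) * κ) :=
    ⟨_, rfl⟩
  have hC₁0 : 0 ≤ C₁ := by rw [hC₁]; positivity
  refine ⟨max 1 ((C₁ * D * κ / ε) ^ 8 / κ), ?_⟩
  intro X hX x₁ y₁ x₀ y₀ Q g hQ
  have hX1 : 1 ≤ X := (le_max_left _ _).trans hX
  have hX0 : 0 < X := by linarith
  have hX2 : (C₁ * D * κ / ε) ^ 8 ≤ κ * X := by
    have := (le_max_right 1 ((C₁ * D * κ / ε) ^ 8 / κ)).trans hX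
    rw [div_le_iff₀ hκ] at this
    linarith
  have hM1 : 1 ≤ M := hMd.pos
  have hMR : (1 : ℝ) ≤ M := by exact_mod_cast hM1
  obtain ⟨k, hke⟩ : ∃ k : ℝ, k = (κ * X) ^ (1 / 8 : ℝ) := ⟨_, rfl⟩
  have hk8 : k ^ 8 = κ * X := by rw [hke]; exact rpow8 _ (by positivity)
  have hk0 : 0 < k := by rw [hke]; positivity
  have hkbig : C₁ * D * κ / ε ≤ k := by
    rw [← hk8] at hX2
    exact le_of_pow_le_pow_left₀ (by norm_num) hk0.le hX2
  obtain ⟨z, hze⟩ : ∃ z : ℝ, z = ((Z : ℝ) + 1) ^ (1 / 8 : ℝ) := ⟨_, rfl⟩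
  have hz0 : 0 < z := by rw [hze]; positivity
  -- the sum over the values of `g`
  have hsum := Finset.sum_comp (s := Q)
    (fun n : ℕ => (tn n : ℝ) * √(n : ℝ) * (1 + ν * (n : ℝ) / X)) g
  have hstart : ∑ q ∈ Q, (tn (g q) : ℝ) * √(g q : ℝ) * (1 + ν * (g q : ℝ) / X) =
      ∑ b ∈ Q.image g, ((Q.filter fun a => g a = b).card) •
        ((tn b : ℝ) * √(b : ℝ) * (1 + ν * (b : ℝ) / X)) := by
    simpa using hsum
  rw [hstart]
  have hterm : ∀ b ∈ Q.image g, ((Q.filter fun a => g a = b).card) •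
        ((tn b : ℝ) * √(b : ℝ) * (1 + ν * (b : ℝ) / X)) ≤
      (C * z⁻¹ * (ρ * σ) * X ^ 2 / (M : ℝ) ^ 2 + C₁ * X * k ^ 7) *
        ((((b : ℝ) ^ (1 / 8 : ℝ)) ^ 10)⁻¹) := by
    intro b hb
    obtain ⟨q₀, hq₀, hgb⟩ := Finset.mem_image.1 hb
    obtain ⟨a1, a2, a3, a4, a5, a6, a7, a8, a9, a10, a11, a12, a13, a14⟩ := hQ q₀ hq₀
    rw [hgb] at a11 a12 a13 a14
    have hbZ : Z + 1 ≤ b := gt_of_coprime Z M b hMd a11 a12
    have hb1 : 1 ≤ b := by omega
    have hbR : (1 : ℝ) ≤ b := by exact_mod_cast hb1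
    have hbk : (b : ℝ) ≤ κ * X := by
      have h1 : (b : ℤ) ≤ |q₀.1| := Int.le_of_dvd (abs_pos.2 a1) ((dvd_abs _ _).2 a13)
      have h2 : (b : ℝ) ≤ |(q₀.1 : ℝ)| := by exact_mod_cast h1
      linarith
    have hodd : Nat.Coprime b 2 := Nat.Coprime.coprime_dvd_right hMd.even a12
    have hcop : IsCoprime (b : ℤ) (M : ℤ) := Nat.isCoprime_iff_coprime.2 a12
    have hcop2 : IsCoprime (b : ℤ) (2 : ℤ) := by exact_mod_cast Nat.isCoprime_iff_coprime.2 hodd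
    have hm1 : 1 ≤ b * M := Nat.one_le_iff_ne_zero.2 (mul_ne_zero (by omega) (by omega))
    have hcount : ((Q.filter fun a => g a = b).card : ℝ) ≤
        (ρ * X / ((b : ℝ) * M) + 1) * (σ * X / ((b : ℝ) * M) + 1) := by
      have hsub : (Q.filter fun a => g a = b) ⊆
          ((Q.filter fun a => g a = b).image Prod.fst) ×ˢ
            ((Q.filter fun a => g a = b).image Prod.snd) := by
        intro q hq
        exact Finset.mem_product.2 ⟨Finset.mem_image_of_mem _ hq, Finset.mem_image_of_mem _ hq⟩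
      have h1 := Finset.card_le_card hsub
      rw [Finset.card_product] at h1
      have h2 : (((Q.filter fun a => g a = b).image Prod.fst).card : ℝ) ≤
          ρ * X / ((b * M : ℕ) : ℝ) + 1 := by
        apply card_cls _ _ hm1 x₁ _ (by positivity)
        · intro x hx
          obtain ⟨q, hq, rfl⟩ := Finset.mem_image.1 hx
          obtain ⟨hq1, hq2⟩ := Finset.mem_filter.1 hq
          have h := hQ q hq1
          exact ⟨h.2.2.2.2.1, h.2.2.2.2.2.1⟩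
        · intro x hx y hy
          obtain ⟨q, hq, rfl⟩ := Finset.mem_image.1 hx
          obtain ⟨q', hq', rfl⟩ := Finset.mem_image.1 hy
          obtain ⟨hq1, hq2⟩ := Finset.mem_filter.1 hq
          obtain ⟨hq1', hq2'⟩ := Finset.mem_filter.1 hq'
          obtain ⟨b1, b2, b3, b4, b5, b6, b7, b8, b9, b10, b11, b12, b13, b14⟩ := hQ q hq1
          obtain ⟨c1, c2, c3, c4, c5, c6, c7, c8, c9, c10, c11, c12, c13, c14⟩ := hQ q' hq1'
          rw [hq2] at b13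
          rw [hq2'] at c13
          push_cast
          apply hcop.mul_dvd (dvd_sub b13 c13)
          have := dvd_sub b9 c9
          rwa [sub_sub_sub_cancel_right] at this
      have h3 : (((Q.filter fun a => g a = b).image Prod.snd).card : ℝ) ≤
          σ * X / ((b * M : ℕ) : ℝ) + 1 := by
        apply card_cls _ _ hm1 y₁ _ (by positivity)
        · intro x hx
          obtain ⟨q, hq, rfl⟩ := Finset.mem_image.1 hx
          obtain ⟨hq1, hq2⟩ := Finset.mem_filter.1 hq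
          have h := hQ q hq1
          exact ⟨h.2.2.2.2.2.2.1, h.2.2.2.2.2.2.2.1⟩
        · intro x hx y hy
          obtain ⟨q, hq, rfl⟩ := Finset.mem_image.1 hx
          obtain ⟨q', hq', rfl⟩ := Finset.mem_image.1 hy
          obtain ⟨hq1, hq2⟩ := Finset.mem_filter.1 hq
          obtain ⟨hq1', hq2'⟩ := Finset.mem_filter.1 hq'
          obtain ⟨b1, b2, b3, b4, b5, b6, b7, b8, b9, b10, b11, b12, b13, b14⟩ := hQ q hq1
          obtain ⟨c1, c2, c3, c4, c5, c6, c7, c8, c9, c10, c11, c12, c13, c14⟩ := hQ q' hq1'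
          rw [hq2] at b14
          rw [hq2'] at c14
          push_cast
          apply hcop.mul_dvd (dvd_sub (hcop2.dvd_of_dvd_mul_left b14) (hcop2.dvd_of_dvd_mul_left c14))
          have := dvd_sub b10 c10
          rwa [sub_sub_sub_cancel_right] at this
      push_cast at h2 h3
      calc ((Q.filter fun a => g a = b).card : ℝ)
          ≤ (((Q.filter fun a => g a = b).image Prod.fst).card : ℝ) *
            (((Q.filter fun a => g a = b).image Prod.snd).card : ℝ) := by exact_mod_cast h1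
        _ ≤ _ := mul_le_mul h2 h3 (Nat.cast_nonneg _) (by positivity)
    obtain ⟨s, hse⟩ : ∃ s : ℝ, s = (b : ℝ) ^ (1 / 8 : ℝ) := ⟨_, rfl⟩
    have hb0 : (0 : ℝ) ≤ b := by linarith
    have hs8 : s ^ 8 = b := by rw [hse]; exact rpow8 _ hb0
    have hs4 : √(b : ℝ) = s ^ 4 := by rw [hse]; exact (rpow4 _ hb0).symm
    have hzs : z ≤ s := by
      rw [hze, hse]
      apply Real.rpow_le_rpow (by positivity) _ (by norm_num)
      exact_mod_cast hbZ
    have hsk : s ≤ k := by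
      rw [hse, hke]
      exact Real.rpow_le_rpow (by positivity) hbk (by norm_num)
    have htn : (tn b : ℝ) ≤ C * s := by rw [hse]; exact hC b hb1
    have hone := one C s z k κ ν ρ σ X M hC0 hz0 hzs hsk hk8 hκ hν hρ hσ hX0 hMR
    rw [hs8] at hone
    rw [nsmul_eq_mul, ← hse, hC₁]
    refine le_trans ?_ hone
    have hs0 : 0 < s := lt_of_lt_of_le hz0 hzs
    rw [hs4]
    gcongr
  refine (Finset.sum_le_sum hterm).trans ?_
  rw [← Finset.mul_sum]
  have hDs : ∑ b ∈ Q.image g, ((((b : ℝ) ^ (1 / 8 : ℝ)) ^ 10)⁻¹) ≤ D := by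
    rw [hDe]
    exact summable_w.sum_le_tsum _ fun i _ => by positivity
  have hfin : C₁ * X * k ^ 7 * D ≤ ε * X ^ 2 := by
    rw [div_le_iff₀ hε] at hkbig
    have h1 : C₁ * D * κ * k ^ 7 ≤ k * ε * k ^ 7 := mul_le_mul_of_nonneg_right hkbig (by positivity)
    have h2 : k * ε * k ^ 7 = ε * (κ * X) := by rw [← hk8]; ring
    rw [h2] at h1
    have h3 : C₁ * D * k ^ 7 ≤ ε * X := by
      have h4 : (C₁ * D * k ^ 7) * κ ≤ (ε * X) * κ := by linarith
      exact le_of_mul_le_mul_right h4 hκ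
    calc C₁ * X * k ^ 7 * D = X * (C₁ * D * k ^ 7) := by ring
      _ ≤ X * (ε * X) := mul_le_mul_of_nonneg_left h3 hX0.le
      _ = ε * X ^ 2 := by ring
  calc (C * z⁻¹ * (ρ * σ) * X ^ 2 / (M : ℝ) ^ 2 + C₁ * X * k ^ 7) *
        ∑ b ∈ Q.image g, ((((b : ℝ) ^ (1 / 8 : ℝ)) ^ 10)⁻¹)
      ≤ (C * z⁻¹ * (ρ * σ) * X ^ 2 / (M : ℝ) ^ 2 + C₁ * X * k ^ 7) * D :=
        mul_le_mul_of_nonneg_left hDs (by positivity)
    _ = C * z⁻¹ * D * (ρ * σ) / (M : ℝ) ^ 2 * X ^ 2 + C₁ * X * k ^ 7 * D := by ring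
    _ ≤ C * z⁻¹ * D * (ρ * σ) / (M : ℝ) ^ 2 * X ^ 2 + ε * X ^ 2 := by linarith
    _ = (C * (((Z : ℝ) + 1) ^ (1 / 8 : ℝ))⁻¹ * D * (ρ * σ) / (M : ℝ) ^ 2 + ε) * X ^ 2 := by
        rw [hze]; ring

end Pool.Agent.L0h84.AV.WS
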